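import Pool.Agent.helper55.RI.Spec

/-!
# Project ri (MP_2bd605_lc), module F1
-/

set_option autoImplicit false

namespace Pool.Agent.RI

open Pool.Agent.helper62 Prog Function Pool.Agent.helper81.PL

theorem F1 (hX1 : X1_stmt) (hX2 : X2_stmt) (hX5 : X5_stmt) (hX8 : X8_stmt) (hX9 : X9_stmt)
    (hR2 : R2_stmt) (hR3 : R3_stmt) (hK1 : K1_stmt) (hK2 : K2_stmt) (hK3 : K3_stmt) : F1_stmt := by
  have hPT : ∀ f : W → W, PTime f ↔ PT f := fun f => ⟨hX5 f, fun h => hX2 f (hX1 f h)⟩
  have hcomp : ∀ f : W → W, PTime f → Computable f := by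
    intro f hf
    obtain ⟨k, hk⟩ := hX9.2 f ((hPT f).1 hf)
    have h1 : Computable (fun w : W => (k, w)) := (Computable.const k).pair Computable.id
    have h2 := Computable.comp hX8 h1
    have h3 : (fun w : W => (fun p : ℕ × W => E p.1 p.2) (k, w)) = f := by
      funext w
      exact congrFun hk w
    rw [h3] at h2
    exact h2
  refine ⟨hPT, ⟨hK1.1, ?_⟩, hcomp, ?_⟩
  · intro A hA
    obtain ⟨a, ha⟩ := hK2.1 A hA
    refine ⟨fun y => pre a y, (hPT _).2 ?_, ha⟩
    have h1 : PT (fun y : W => (a, y)) := PT.pair (PT.const a) PT.id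
    exact PT.comp (g := fun p : ℕ × W => pre p.1 p.2) hK3.1 h1
  · intro C f hC hf hinj
    refine ⟨?_, ?_⟩
    · have h1 : REPred (fun x : W × W => x.2 ∈ C) :=
        hR2.2.1 (W × W) W (fun x => x.2) (fun x => x ∈ C) Computable.snd hC.1
      have h2 : REPred (fun x : W × W => f x.2 = x.1) := by
        have := hR3.2.2.2.1 (W × W) W (fun x => f x.2) (fun x => x.1)
          ((hcomp f hf).comp Computable.snd) Computable.fst
        exact this.to_re
      have h3 := (hR2.1 (W × W) _ _ h1 h2).1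
      have h4 := hR2.2.2.1 W W (fun y x => x ∈ C ∧ f x = y) h3
      exact h4
    · intro A hA
      obtain ⟨h, hh, hAC⟩ := hC.2 A hA
      refine ⟨fun x => f (h x), (hPT _).2 (PT.comp ((hPT _).1 hf) ((hPT _).1 hh)), ?_⟩
      intro x
      rw [hAC x]
      constructor
      · intro hx
        exact ⟨h x, hx, rfl⟩
      · rintro ⟨z, hz, hzx⟩
        rwa [← hinj hzx]

end Pool.Agent.RI
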